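import Pool.Agent.H629.CG.Stm

/-!
# Task KDER: derivative under the integral along a curve (helper921 for helper629)
-/

set_option autoImplicit false

namespace Pool.Agent.H921.CG.KDER

open MeasureTheory ProbabilityTheory Filter Topology Set Pool.Agent.H629.CG
open scoped ENNReal NNReal

theorem WW_pos {n N : ℕ} (hn : 0 < n) (ξ : Fin n → Fin N → ℝ) (z : Fin N → ℝ) : 0 < WW ξ z := by
  haveI : Nonempty (Fin n) := ⟨⟨0, hn⟩⟩
  unfold WW
  exact Finset.sum_pos (fun i _ => Real.exp_pos _) Finset.univ_nonempty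

theorem ee_cont {n N : ℕ} (ξ : Fin n → Fin N → ℝ) (i : Fin n) :
    Continuous (fun z => ee ξ i z) := by
  unfold ee
  fun_prop

theorem WW_cont {n N : ℕ} (ξ : Fin n → Fin N → ℝ) : Continuous (fun z => WW ξ z) := by
  unfold WW
  exact continuous_finset_sum _ (fun i _ => ee_cont ξ i)

theorem ee_der {n N : ℕ} (ξ ξ' : ℝ → Fin n → Fin N → ℝ)
    (h : ∀ θ i k, HasDerivAt (fun τ => ξ τ i k) (ξ' θ i k) θ) (i : Fin n) (z : Fin N → ℝ) (θ : ℝ) :
    HasDerivAt (fun τ => ee (ξ τ) i z)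
      (ee (ξ θ) i z * (∑ k, ξ' θ i k * z k - ∑ k, ξ θ i k * ξ' θ i k)) θ := by
  have h1 : HasDerivAt (fun τ => ∑ k, ξ τ i k * z k) (∑ k, ξ' θ i k * z k) θ :=
    HasDerivAt.fun_sum (fun k _ => (h θ i k).mul_const (z k))
  have h2 : HasDerivAt (fun τ => ∑ k, ξ τ i k ^ 2) (∑ k, (2 * (ξ θ i k * ξ' θ i k))) θ := by
    apply HasDerivAt.fun_sum
    intro k _
    have h3 := (h θ i k).mul (h θ i k)
    have e1 : (fun τ => ξ τ i k ^ 2) = (fun τ => ξ τ i k) * (fun τ => ξ τ i k) := by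
      funext τ
      simp [pow_two]
    rw [e1]
    have e2 : 2 * (ξ θ i k * ξ' θ i k) = ξ' θ i k * ξ θ i k + ξ θ i k * ξ' θ i k := by ring
    rw [e2]
    exact h3
  have h3 := (h1.sub (h2.div_const 2)).exp
  have e3 : (∑ k, ξ' θ i k * z k - (∑ k, (2 * (ξ θ i k * ξ' θ i k))) / 2)
      = (∑ k, ξ' θ i k * z k - ∑ k, ξ θ i k * ξ' θ i k) := by
    rw [← Finset.mul_sum]
    ring
  rw [e3] at h3
  exact h3

theorem WW_der {n N : ℕ} (ξ ξ' : ℝ → Fin n → Fin N → ℝ)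
    (h : ∀ θ i k, HasDerivAt (fun τ => ξ τ i k) (ξ' θ i k) θ) (z : Fin N → ℝ) (θ : ℝ) :
    HasDerivAt (fun τ => WW (ξ τ) z)
      (∑ i, ee (ξ θ) i z * (∑ k, ξ' θ i k * z k - ∑ k, ξ θ i k * ξ' θ i k)) θ :=
  HasDerivAt.fun_sum (fun i _ => ee_der ξ ξ' h i z θ)

theorem curve_bound {n N : ℕ} (ξ : ℝ → Fin n → Fin N → ℝ)
    (h : ∀ i k, Continuous (fun τ => ξ τ i k)) (θ : ℝ) :
    ∃ R : ℝ, ∀ τ ∈ Icc (θ - 1) (θ + 1), ∀ i k, |ξ τ i k| ≤ R := by
  have hc : Continuous ξ := continuous_pi (fun i => continuous_pi (fun k => h i k))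
  obtain ⟨R, hR⟩ := (isCompact_Icc (a := θ - 1) (b := θ + 1)).exists_bound_of_continuousOn
    hc.continuousOn
  refine ⟨R, fun τ hτ i k => ?_⟩
  calc |ξ τ i k| = ‖ξ τ i k‖ := (Real.norm_eq_abs _).symm
    _ ≤ ‖ξ τ i‖ := norm_le_pi_norm _ _
    _ ≤ ‖ξ τ‖ := norm_le_pi_norm _ _
    _ ≤ R := hR τ hτ

theorem lin_bound {N : ℕ} (R : ℝ) (hR : 0 ≤ R) (a b z : Fin N → ℝ) (ha : ∀ k, |a k| ≤ R)
    (hb : ∀ k, |b k| ≤ R) :
    |∑ k, b k * z k - ∑ k, a k * b k| ≤ (R + N * (R * R)) * Real.exp (∑ k, |z k|) := by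
  have hS : 0 ≤ ∑ k, |z k| := Finset.sum_nonneg (fun k _ => abs_nonneg _)
  have h1 : |∑ k, b k * z k| ≤ R * ∑ k, |z k| := by
    calc |∑ k, b k * z k| ≤ ∑ k, |b k * z k| := Finset.abs_sum_le_sum_abs _ _
      _ ≤ ∑ k, R * |z k| := by
          apply Finset.sum_le_sum
          intro k _
          rw [abs_mul]
          exact mul_le_mul_of_nonneg_right (hb k) (abs_nonneg _)
      _ = R * ∑ k, |z k| := by rw [Finset.mul_sum]
  have h2 : |∑ k, a k * b k| ≤ N * (R * R) := by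
    calc |∑ k, a k * b k| ≤ ∑ k, |a k * b k| := Finset.abs_sum_le_sum_abs _ _
      _ ≤ ∑ _k : Fin N, R * R := by
          apply Finset.sum_le_sum
          intro k _
          rw [abs_mul]
          exact mul_le_mul (ha k) (hb k) (abs_nonneg _) hR
      _ = N * (R * R) := by simp
  have h3 : ∑ k, |z k| ≤ Real.exp (∑ k, |z k|) := by
    have := Real.add_one_le_exp (∑ k, |z k|)
    linarith
  have h4 : 1 ≤ Real.exp (∑ k, |z k|) := Real.one_le_exp hS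
  have h5 : (0 : ℝ) ≤ N * (R * R) := by positivity
  have h6 : |∑ k, b k * z k - ∑ k, a k * b k| ≤ |∑ k, b k * z k| + |∑ k, a k * b k| :=
    abs_sub _ _
  have h7 : R * ∑ k, |z k| ≤ R * Real.exp (∑ k, |z k|) := mul_le_mul_of_nonneg_left h3 hR
  have h8 : N * (R * R) * 1 ≤ N * (R * R) * Real.exp (∑ k, |z k|) :=
    mul_le_mul_of_nonneg_left h4 h5
  calc |∑ k, b k * z k - ∑ k, a k * b k| ≤ R * (∑ k, |z k|) + N * (R * R) := by linarith
    _ ≤ (R + N * (R * R)) * Real.exp (∑ k, |z k|) := by nlinarith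

/-- One pair of constants for all bounds. -/
theorem dom (hD : S_KDOM) (n N : ℕ) (hn : 0 < n) (R m : ℝ) :
    ∃ C c : ℝ, 0 ≤ C ∧ 0 ≤ c ∧ ∀ ξ : Fin n → Fin N → ℝ, (∀ i k, |ξ i k| ≤ R) →
      ∀ z : Fin N → ℝ, (WW ξ z) ^ m + (WW ξ z) ^ (-m) ≤ 2 * C * Real.exp (c * ∑ k, |z k|) ∧
        ∀ i, ee ξ i z ≤ C * Real.exp (c * ∑ k, |z k|) := by
  obtain ⟨C1, c1, h1⟩ := hD.2 n N hn R m
  obtain ⟨C2, c2, h2⟩ := hD.2 n N hn R (-m)
  refine ⟨max (max C1 C2) 0, max (max c1 c2) 0, le_max_right _ _, le_max_right _ _, ?_⟩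
  intro ξ hξ z
  have hS : 0 ≤ ∑ k, |z k| := Finset.sum_nonneg (fun k _ => abs_nonneg _)
  have key : ∀ C' c' : ℝ, C' ≤ max C1 C2 → c' ≤ max c1 c2 →
      C' * Real.exp (c' * ∑ k, |z k|) ≤
        max (max C1 C2) 0 * Real.exp (max (max c1 c2) 0 * ∑ k, |z k|) := by
    intro C' c' hC hc
    have a1 : Real.exp (c' * ∑ k, |z k|) ≤ Real.exp (max (max c1 c2) 0 * ∑ k, |z k|) := by
      apply Real.exp_le_exp.mpr
      exact mul_le_mul_of_nonneg_right (hc.trans (le_max_left _ _)) hS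
    have a2 : C' ≤ max (max C1 C2) 0 := hC.trans (le_max_left _ _)
    calc C' * Real.exp (c' * ∑ k, |z k|)
        ≤ max (max C1 C2) 0 * Real.exp (c' * ∑ k, |z k|) :=
          mul_le_mul_of_nonneg_right a2 (Real.exp_pos _).le
      _ ≤ _ := mul_le_mul_of_nonneg_left a1 (le_max_right _ _)
  have k1 := key C1 c1 (le_max_left _ _) (le_max_left _ _)
  have k2 := key C2 c2 (le_max_right _ _) (le_max_right _ _)
  obtain ⟨p1, q1⟩ := h1 ξ hξ z
  obtain ⟨p2, _⟩ := h2 ξ hξ z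
  refine ⟨by linarith, fun i => (q1 i).trans k1⟩

theorem t_KDER : S_KDOM → S_KDER := by
  intro hD n N hn F F1 F2 hF ξ ξ' hξ hξ' θ
  obtain ⟨R1, hR1⟩ := curve_bound ξ (fun i k =>
    continuous_iff_continuousAt.mpr (fun τ => (hξ τ i k).continuousAt)) θ
  obtain ⟨R2, hR2⟩ := curve_bound ξ' hξ' θ
  obtain ⟨C, m, hC, hm, hb⟩ := hF.bd
  set R : ℝ := max (max R1 R2) 0 with hRdef
  have hR : 0 ≤ R := le_max_right _ _
  have b1 : ∀ τ ∈ Icc (θ - 1) (θ + 1), ∀ i k, |ξ τ i k| ≤ R := fun τ hτ i k =>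
    (hR1 τ hτ i k).trans ((le_max_left _ _).trans (le_max_left _ _))
  have b2 : ∀ τ ∈ Icc (θ - 1) (θ + 1), ∀ i k, |ξ' τ i k| ≤ R := fun τ hτ i k =>
    (hR2 τ hτ i k).trans ((le_max_right _ _).trans (le_max_left _ _))
  obtain ⟨K, c, hK, hc, hdom⟩ := dom hD n N hn R m
  have hint := hD.1 N
  have hθ : θ ∈ Icc (θ - 1) (θ + 1) := ⟨by linarith, by linarith⟩
  have hFc : ContinuousOn F (Ioi 0) := fun w hw => (hF.d1 w hw).continuousAt.continuousWithinAt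
  have hF1c : ContinuousOn F1 (Ioi 0) := fun w hw => (hF.d2 w hw).continuousAt.continuousWithinAt
  have hmeas : ∀ τ, AEStronglyMeasurable (fun z => F (WW (ξ τ) z)) (gam N) := by
    intro τ
    exact (hFc.comp_continuous (WW_cont (ξ τ)) (fun z => WW_pos hn (ξ τ) z)).aestronglyMeasurable
  have hmeas' : AEStronglyMeasurable (fun z => F1 (WW (ξ θ) z) * ∑ i, ee (ξ θ) i z *
      (∑ k, ξ' θ i k * z k - ∑ k, ξ θ i k * ξ' θ i k)) (gam N) := by
    have c1 : Continuous (fun z => F1 (WW (ξ θ) z)) :=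
      hF1c.comp_continuous (WW_cont (ξ θ)) (fun z => WW_pos hn (ξ θ) z)
    have c2 : Continuous (fun z : Fin N → ℝ => ∑ i, ee (ξ θ) i z *
        (∑ k, ξ' θ i k * z k - ∑ k, ξ θ i k * ξ' θ i k)) := by
      apply continuous_finset_sum
      intro i _
      apply (ee_cont (ξ θ) i).mul
      fun_prop
    exact (c1.mul c2).aestronglyMeasurable
  have hFint : Integrable (fun z => F (WW (ξ θ) z)) (gam N) := by
    refine Integrable.mono' ((hint c).const_mul (C * (2 * K))) (hmeas θ) ?_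
    refine Eventually.of_forall (fun z => ?_)
    rw [Real.norm_eq_abs]
    have h1 := (hb _ (WW_pos hn (ξ θ) z)).1
    have h2 := (hdom (ξ θ) (b1 θ hθ) z).1
    calc |F (WW (ξ θ) z)| ≤ C * (WW (ξ θ) z ^ m + WW (ξ θ) z ^ (-m)) := h1
      _ ≤ C * (2 * K * Real.exp (c * ∑ k, |z k|)) := mul_le_mul_of_nonneg_left h2 hC
      _ = C * (2 * K) * Real.exp (c * ∑ k, |z k|) := by ring
  have hball : Metric.ball θ 1 ⊆ Icc (θ - 1) (θ + 1) := by
    intro τ hτ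
    rw [Real.ball_eq_Ioo] at hτ
    exact ⟨hτ.1.le, hτ.2.le⟩
  have hmain := hasDerivAt_integral_of_dominated_loc_of_deriv_le (μ := gam N) (x₀ := θ)
    (F := fun τ z => F (WW (ξ τ) z))
    (F' := fun τ z => F1 (WW (ξ τ) z) * ∑ i, ee (ξ τ) i z *
      (∑ k, ξ' τ i k * z k - ∑ k, ξ τ i k * ξ' τ i k))
    (bound := fun z => (C * (2 * K) * (n * (K * (R + N * (R * R))))) *
      Real.exp ((2 * c + 1) * ∑ k, |z k|))
    (Metric.ball_mem_nhds θ one_pos) (Eventually.of_forall hmeas) hFint hmeas' ?_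
    ((hint (2 * c + 1)).const_mul _) ?_
  · exact hmain.2
  · refine Eventually.of_forall (fun z τ hτ => ?_)
    have hτ' := hball hτ
    have hS : 0 ≤ ∑ k, |z k| := Finset.sum_nonneg (fun k _ => abs_nonneg _)
    rw [Real.norm_eq_abs, abs_mul]
    have h1 := (hb _ (WW_pos hn (ξ τ) z)).2.1
    have h2 := (hdom (ξ τ) (b1 τ hτ') z).1
    have h3 := (hdom (ξ τ) (b1 τ hτ') z).2
    have s1 : |F1 (WW (ξ τ) z)| ≤ C * (2 * K) * Real.exp (c * ∑ k, |z k|) := by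
      calc |F1 (WW (ξ τ) z)| ≤ C * (WW (ξ τ) z ^ m + WW (ξ τ) z ^ (-m)) := h1
        _ ≤ C * (2 * K * Real.exp (c * ∑ k, |z k|)) := mul_le_mul_of_nonneg_left h2 hC
        _ = C * (2 * K) * Real.exp (c * ∑ k, |z k|) := by ring
    have s2 : |∑ i, ee (ξ τ) i z * (∑ k, ξ' τ i k * z k - ∑ k, ξ τ i k * ξ' τ i k)| ≤
        n * ((K * Real.exp (c * ∑ k, |z k|)) * ((R + N * (R * R)) * Real.exp (∑ k, |z k|))) := by
      calc |∑ i, ee (ξ τ) i z * (∑ k, ξ' τ i k * z k - ∑ k, ξ τ i k * ξ' τ i k)|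
          ≤ ∑ i, |ee (ξ τ) i z * (∑ k, ξ' τ i k * z k - ∑ k, ξ τ i k * ξ' τ i k)| :=
            Finset.abs_sum_le_sum_abs _ _
        _ ≤ ∑ _i : Fin n, (K * Real.exp (c * ∑ k, |z k|)) *
              ((R + N * (R * R)) * Real.exp (∑ k, |z k|)) := by
            apply Finset.sum_le_sum
            intro i _
            rw [abs_mul]
            have e0 : |ee (ξ τ) i z| = ee (ξ τ) i z := abs_of_pos (Real.exp_pos _)
            rw [e0]
            exact mul_le_mul (h3 i) (lin_bound R hR (ξ τ i) (ξ' τ i) z (b1 τ hτ' i) (b2 τ hτ' i))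
              (abs_nonneg _) (by positivity)
        _ = _ := by simp
    calc |F1 (WW (ξ τ) z)| *
          |∑ i, ee (ξ τ) i z * (∑ k, ξ' τ i k * z k - ∑ k, ξ τ i k * ξ' τ i k)|
        ≤ (C * (2 * K) * Real.exp (c * ∑ k, |z k|)) *
          (n * ((K * Real.exp (c * ∑ k, |z k|)) *
            ((R + N * (R * R)) * Real.exp (∑ k, |z k|)))) :=
          mul_le_mul s1 s2 (abs_nonneg _) (by positivity)
      _ = (C * (2 * K) * (n * (K * (R + N * (R * R))))) *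
          (Real.exp (c * ∑ k, |z k|) * Real.exp (c * ∑ k, |z k|) * Real.exp (∑ k, |z k|)) := by
          ring
      _ = (C * (2 * K) * (n * (K * (R + N * (R * R))))) *
          Real.exp ((2 * c + 1) * ∑ k, |z k|) := by
          rw [← Real.exp_add, ← Real.exp_add]
          ring_nf
  · refine Eventually.of_forall (fun z τ _ => ?_)
    exact (hF.d1 _ (WW_pos hn (ξ τ) z)).comp τ (WW_der ξ ξ' hξ z τ)

end Pool.Agent.H921.CG.KDER
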